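import Pool.Agent.H64.Mealy

namespace Pool.Agent.Results.MP_407f73_al.DualNotFree

open Pool.Agent.H64.MealyDefs

theorem result : ∃ (Q A : Type) (_ : Fintype Q) (_ : Nonempty Q) (_ : Fintype A) (M : Mealy Q A),
    2 ≤ Fintype.card A ∧ M.IsTransitive ∧ Function.Injective M.dual.toEnd ∧ ¬ M.dual.IsFree :=
  Pool.Agent.H64.Mealy.main

end Pool.Agent.Results.MP_407f73_al.DualNotFree
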